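import Pool.Agent.H5.CP.MainB

/-!
# MP_37b730_gt (Q1): characterisation of the class `CP` among groups of type FP

Definitions (file `Pool/Agent/H5/CP/Defs.lean`): `IsTypeFP` (finite resolution of the trivial module `ℤ` by finitely
generated projective `ℤ[Γ]`-modules; satisfied by the fundamental groups of closed aspherical manifolds) and `InCP` (the class
`CP` of the problem).
-/

namespace Pool.Agent.Results.MP_37b730_gt.CharacterisationCP

open Pool.Agent.H5.CP

/-- For `Γ` of type FP the following are equivalent: `Γ` is in `CP`; the centre is finitely generated and some prime is not the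
order of an element of `Γ/C(Γ)`; the centre is finitely generated and the orders of the torsion elements of `Γ/C(Γ)` are
bounded. -/
theorem result (Γ : Type) [Group Γ] (hΓ : IsTypeFP Γ) :
    List.TFAE
      [InCP Γ,
       (Subgroup.center Γ).FG ∧
         ∃ p : ℕ, p.Prime ∧ ∀ x : Γ ⧸ Subgroup.center Γ, x ^ p = 1 → x = 1,
       (Subgroup.center Γ).FG ∧
         ∃ s : ℕ, 0 < s ∧ ∀ x : Γ ⧸ Subgroup.center Γ, IsOfFinOrder x → x ^ s = 1] := by
  tfae_have 1 ↔ 2 := MainB_iff hΓ
  tfae_have 2 ↔ 3 := by
    constructor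
    · rintro ⟨h1, h2⟩
      exact ⟨h1, (MainA_bd hΓ (Subgroup.center Γ) le_rfl h1).1
        ((MainA_iff hΓ (Subgroup.center Γ) le_rfl h1).2 h2)⟩
    · rintro ⟨h1, h2⟩
      exact ⟨h1, (MainA_iff hΓ (Subgroup.center Γ) le_rfl h1).1
        ((MainA_bd hΓ (Subgroup.center Γ) le_rfl h1).2 h2)⟩
  tfae_finish

end Pool.Agent.Results.MP_37b730_gt.CharacterisationCP
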