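import Pool.Agent.H5.PD.V7

/-!
# MP_37b730_gt (Q1): Poincare duality groups of dimension at most `4` and the class `CP`

Definitions (file `Pool/Agent/H5/CP/Defs.lean`): `IsTypeFP` (finite resolution of the trivial module `ℤ` by finitely
generated projective `ℤ[Γ]`-modules) and `InCP` (the class `CP` of the problem).

The hypotheses on `Γ` (type FP, `H^j(Γ;ℤ[Γ]) = 0` for `j ≠ d` and `≅ ℤ` for `j = d`) say that `Γ` is a Poincare duality group of
dimension `d`; the fundamental group of a closed aspherical `d`-manifold satisfies them.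
-/

namespace Pool.Agent.Results.MP_37b730_gt.DimensionFourCP

open CategoryTheory CategoryTheory.Limits Pool.Agent.H5.CP

/-- For a Poincare duality group `Γ` of dimension `d ≤ 4` the following are equivalent: `Γ` is in `CP`; the centre of `Γ` is
finitely generated; the centre of `Γ` has no subgroup isomorphic to `ℚ`. -/
theorem result (Γ : Type) [Group Γ] (d : ℕ) (hd : d ≤ 4) (hΓ : IsTypeFP Γ)
    (h0 : ∀ j, j ≠ d → IsZero (groupCohomology (Rep.leftRegular ℤ Γ) j))
    (h1 : Nonempty (groupCohomology (Rep.leftRegular ℤ Γ) d ≃+ ℤ)) :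
    List.TFAE
      [InCP Γ,
       (Subgroup.center Γ).FG,
       ¬ ∃ A : Subgroup Γ, A ≤ Subgroup.center Γ ∧ Nonempty (A ≃* Multiplicative ℚ)] :=
  Pool.Agent.H5.PD.V7_main Γ d hd hΓ h0 h1

end Pool.Agent.Results.MP_37b730_gt.DimensionFourCP
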