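import Pool.Agent.H5.ZP.Fi

/-!
# MP_37b730_gt (Q1): the class `CP` among groups of type FP, in terms of divisible subgroups

Definitions (file `Pool/Agent/H5/CP/Defs.lean`): `IsTypeFP` (finite resolution of the trivial module `ℤ` by finitely
generated projective `ℤ[Γ]`-modules; satisfied by the fundamental groups of closed aspherical manifolds) and `InCP` (the class
`CP` of the problem).  `Zp p` (file `Pool/Agent/H5/ZP/Zs.lean`) is the additive group `ℤ[1/p]`.
-/

namespace Pool.Agent.Results.MP_37b730_gt.DivisibleCP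

open Pool.Agent.H5.CP Pool.Agent.H5.ZP

/-- For `Γ` of type FP the following are equivalent: `Γ` is in `CP`; for every central `z ≠ 1` there is a prime `p` such that
`z` lies in no subgroup of `Γ` isomorphic to `ℤ[1/p]`; for every central `z ≠ 1` there are a prime `p` and `k` such that `z` is
not a `p^k`-th power in `Γ`. -/
theorem result (Γ : Type) [Group Γ] (hΓ : IsTypeFP Γ) :
    List.TFAE
      [InCP Γ,
       ∀ z ∈ Subgroup.center Γ, z ≠ 1 → ∃ p : ℕ, p.Prime ∧
         ¬ ∃ S : Subgroup Γ, z ∈ S ∧ Nonempty (S ≃* Multiplicative (Zp p)),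
       ∀ z ∈ Subgroup.center Γ, z ≠ 1 → ∃ p k : ℕ, p.Prime ∧ ¬ ∃ u : Γ, u ^ (p ^ k) = z] :=
  Fi_main Γ hΓ

end Pool.Agent.Results.MP_37b730_gt.DivisibleCP
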