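import Pool.Agent.H5.PD.V9

/-!
# MP_37b730_gt (Q1): Poincare duality groups and the class `CP`

Definitions: `IsTypeFP` (finite resolution of the trivial module `ℤ` by finitely generated projective `ℤ[Γ]`-modules), `InCP`
(the class `CP` of the problem), `CD`, `FPm` (file `Pool/Agent/H5/CP/Defs.lean`); `Zp p = ℤ[1/p]` (`Pool/Agent/H5/ZP/Zs.lean`);
`IsPD k G c`: `G` is a Poincare duality group of dimension `c` over `k` (`Pool/Agent/H5/PD/DfP.lean`); `Exo Γ d p c Δ A`
(`Pool/Agent/H5/PD/Ex.lean`): `Δ` is a finitely generated subgroup of `Γ`, a Poincare duality group over `F_p` of dimension `c`,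
`A ≅ ℤ[1/p]` is central in `Δ`, `Δ` is the centraliser of an element of `A`, and numerical conditions.

The hypotheses on `Γ` (type FP, `H^j(Γ;ℤ[Γ]) = 0` for `j ≠ d` and `≅ ℤ` for `j = d`) say that `Γ` is a Poincare duality group of
dimension `d`; the fundamental group of a closed aspherical `d`-manifold satisfies them.
-/

namespace Pool.Agent.Results.MP_37b730_gt.PoincareDualityCP

open CategoryTheory CategoryTheory.Limits Pool.Agent.H5.CP Pool.Agent.H5.ZP Pool.Agent.H5.PD

/-- A Poincare duality group `Γ` of dimension `d` is in `CP` iff for every central `z ≠ 1` there is a prime `p` such that `z` is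
not contained in the central subgroup `A ≅ ℤ[1/p]` of a pair `Exo Γ d p c Δ A`. -/
theorem result (Γ : Type) [Group Γ] (d : ℕ) (hΓ : IsTypeFP Γ)
    (h0 : ∀ j, j ≠ d → IsZero (groupCohomology (Rep.leftRegular ℤ Γ) j))
    (h1 : Nonempty (groupCohomology (Rep.leftRegular ℤ Γ) d ≃+ ℤ)) :
    InCP Γ ↔ ∀ z ∈ Subgroup.center Γ, z ≠ 1 → ∃ p : ℕ, p.Prime ∧
      ¬ ∃ (c : ℕ) (Δ A : Subgroup Γ), z ∈ A ∧ Exo Γ d p c Δ A :=
  V9_main Γ d hΓ h0 h1

end Pool.Agent.Results.MP_37b730_gt.PoincareDualityCP
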